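import Pool.Agent.V1157.CB.Main

/-!
# Hartshorne's conjecture on hypersurfaces: bounded images, commutation, polynomial identities

Fix the dimension `n`, the codimension `i` and a class `P` of varieties `Y` of dimension `n` with
divisor classes `h`, such that the cohomology classes of the cycles of codimension `i` on `Y` are
multiples of the class of `h ^ i` (for example smooth hypersurfaces of dimension `n`, `i < n / 2`, by
the theorem of Lefschetz). The following are equivalent:

1. `A^i(Y) = ℚ h ^ i` for all `Y` in `P`;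
2. there is a number `D` such that on every variety of dimension `n` the homologically trivial
   cycles of codimension `i` which come from varieties in `P` through correspondences of degree zero
   contain at most `D` linearly independent ones;
3. on every variety of dimension `n` the self-correspondences which factor through varieties in `P`
   commute on the homologically trivial cycles of codimension `i`;
4. they satisfy some non-zero multilinear polynomial identity there.
-/

set_option autoImplicit false

open CategoryTheory AlgebraicGeometry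

universe u v w

namespace Pool.Agent.Results.MP_4be043_ag.BoundedOrCommuting

open Pool.Agent.H914 Pool.Agent.H914.VarClass Pool.Agent.H914.VarClass.Obj Pool.Agent.W492.BB
  Pool.Agent.TH133 Pool.Agent.V1157.KF Pool.Agent.V1157.CB

section defs

variable {k : Type u} [Field k] {𝒱 : VarClass k} {C : TheoryData.{u, v, 0} 𝒱 ℚ} {K : Type w}
    [Field K] (H : WeilTheoryData.{u, v, w} C K) (P : 𝒱.Obj → Prop) (h : ∀ Y : 𝒱.Obj, C.A Y)
    (n i : ℕ)

/-- The consequence of Lefschetz' theorem on hyperplane sections: on the varieties `Y` of dimension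
`n` in the class `P` the power `h ^ i` has codimension `i` and is not homologically trivial, and
every cycle of codimension `i` is homologically equivalent to a rational multiple of `h ^ i`. -/
def Lefschetz : Prop := ∀ Y : 𝒱.Obj, P Y → Y.dim = n →
  C.Deg i (h Y ^ i) ∧ H.cl (h Y ^ i) ≠ 0 ∧ ∀ y : C.A Y, C.Deg i y →
    ∃ q : ℚ, H.cl (y - q • h Y ^ i) = 0

/-- `A^i(Y) = ℚ h ^ i` for all varieties `Y` of dimension `n` in the class `P`. -/
def Hartshorne : Prop := ∀ Y : 𝒱.Obj, P Y → Y.dim = n → ∀ y : C.A Y, C.Deg i y →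
  ∃ q : ℚ, y = q • h Y ^ i

end defs

theorem hartshorne_iff {k : Type u} [Field k] {𝒱 : VarClass k} {C : TheoryData.{u, v, 0} 𝒱 ℚ}
    [IsChowProj C] {K : Type w} [Field K] {H : WeilTheoryData.{u, v, w} C K} [IsWeilProj H]
    {P : 𝒱.Obj → Prop} {h : ∀ Y : 𝒱.Obj, C.A Y} {n i : ℕ} (hL : Lefschetz H P h n i) :
    Hartshorne P h n i ↔ NoTrivialCycles H P n i := by
  constructor
  · intro h1 Y y hP hY hy
    obtain ⟨q, rfl⟩ := h1 Y hP hY y hy.1
    have h2 := hy.2
    rw [Algebra.smul_def, map_mul] at h2
    by_cases hq : q = 0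
    · rw [hq, zero_smul]
    · exfalso
      have h3 : H.cl (algebraMap ℚ (C.A Y) q⁻¹) * (H.cl (algebraMap ℚ (C.A Y) q) *
          H.cl (h Y ^ i)) = 0 := by rw [h2, mul_zero]
      rw [← mul_assoc, ← map_mul, ← map_mul, ← map_mul (algebraMap ℚ (C.A Y)),
        inv_mul_cancel₀ hq, map_one, one_mul] at h3
      exact (hL Y hP hY).2.1 h3
  · intro h1 Y hP hY y hy
    obtain ⟨hd, -, hl⟩ := hL Y hP hY
    obtain ⟨q, hq⟩ := hl y hy
    refine ⟨q, sub_eq_zero.1 (h1 Y _ hP hY ⟨?_, hq⟩)⟩
    exact Submodule.sub_mem _ hy (Submodule.smul_mem _ q hd)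

theorem result {k : Type u} [Field k] {𝒱 : VarClass k} {C : TheoryData.{u, v, 0} 𝒱 ℚ}
    [IsChowProj C] {K : Type w} [Field K] {H : WeilTheoryData.{u, v, w} C K} [IsWeilProj H]
    (P : 𝒱.Obj → Prop) (h : ∀ Y : 𝒱.Obj, C.A Y) (n i : ℕ) (hL : Lefschetz H P h n i)
    (hB : ∀ (S : 𝒱.Obj) (N : ℕ), P S → S.dim = n → HasPower C n N S) :
    List.TFAE [Hartshorne P h n i, ∃ D, AtMost H P n i D, Commuting H P n i,
      ∃ (d : ℕ) (c : Equiv.Perm (Fin d) → ℚ), c ≠ 0 ∧ Identity H P n i d c] := by
  rw [hartshorne_iff hL]
  exact bloch_main hB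

end Pool.Agent.Results.MP_4be043_ag.BoundedOrCommuting
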