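import Pool.Agent.V11182.GA.Main
import Pool.Agent.V1157.CB.Main

/-!
# Hartshorne's conjecture on hypersurfaces: powers, eigenvalues, ranks and group actions of
correspondences

Fix the dimension `n`, the codimension `i` and a class `P` of varieties `Y` of dimension `n` with
divisor classes `h`, such that the cohomology classes of the cycles of codimension `i` on `Y` are
multiples of the class of `h ^ i` (for example smooth hypersurfaces of dimension `n`, `i < n / 2`, by
the theorem of Lefschetz). A self-correspondence of degree zero of a variety `X` of dimension `n` is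
called admissible if it is a linear combination of correspondences which factor through varieties in
`P`. It is shown that `A^i(Y) = ℚ h ^ i` for all `Y` in `P` follows from very weak bounds for the
action of a single admissible correspondence on the homologically trivial cycles of codimension
`i` on arbitrary varieties `X` of dimension `n`, and that it is equivalent to the statement that one
group `G`, which may be any group with a nontrivial finite dimensional representation over `ℚ`, for
example any finite group `G ≠ 1`, has no nontrivial actions on `A^i_hom(X)` by operators `1 + W_g`,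
`W_g` admissible.
-/

set_option autoImplicit false

open CategoryTheory AlgebraicGeometry

universe u v w

namespace Pool.Agent.Results.MP_4be043_ag.GroupActionsAndPowers

open Pool.Agent.H914 Pool.Agent.H914.VarClass Pool.Agent.H914.VarClass.Obj Pool.Agent.W492.BB
  Pool.Agent.TH133 Pool.Agent.V1157.KF Pool.Agent.V1157.CB Pool.Agent.V11182.GA
open Pool.Agent.V1157.RC (act_smul')

section defs

variable {k : Type u} [Field k] {𝒱 : VarClass k} {C : TheoryData.{u, v, 0} 𝒱 ℚ} {K : Type w}
    [Field K] (H : WeilTheoryData.{u, v, w} C K) (P : 𝒱.Obj → Prop) (h : ∀ Y : 𝒱.Obj, C.A Y)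
    (n i : ℕ)

/-- The consequence of Lefschetz' theorem on hyperplane sections: on the varieties `Y` of dimension
`n` in the class `P` the power `h ^ i` has codimension `i` and is not homologically trivial, and
every cycle of codimension `i` is homologically equivalent to a rational multiple of `h ^ i`. -/
def Lefschetz : Prop := ∀ Y : 𝒱.Obj, P Y → Y.dim = n →
  C.Deg i (h Y ^ i) ∧ H.cl (h Y ^ i) ≠ 0 ∧ ∀ y : C.A Y, C.Deg i y →
    ∃ q : ℚ, H.cl (y - q • h Y ^ i) = 0

/-- `A^i(Y) = ℚ h ^ i` for all varieties `Y` of dimension `n` in the class `P`. -/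
def Hartshorne : Prop := ∀ Y : 𝒱.Obj, P Y → Y.dim = n → ∀ y : C.A Y, C.Deg i y →
  ∃ q : ℚ, y = q • h Y ^ i

/-- The homologically trivial cycles of codimension `i`. -/
def Triv (X : 𝒱.Obj) (x : C.A X) : Prop := HomTriv H i x

/-- The admissible self-correspondences: the linear combinations of correspondences which factor
through varieties of dimension `n` in the class `P`. -/
def Adm (C : TheoryData.{u, v, 0} 𝒱 ℚ) (P : 𝒱.Obj → Prop) (n : ℕ) (X : 𝒱.Obj)
    (W : C.A (X.prod X)) : Prop :=
  W ∈ Submodule.span ℚ {W' : C.A (X.prod X) | FactorsThrough C P n X W'}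

end defs

theorem hartshorne_iff {k : Type u} [Field k] {𝒱 : VarClass k} {C : TheoryData.{u, v, 0} 𝒱 ℚ}
    [IsChowProj C] {K : Type w} [Field K] {H : WeilTheoryData.{u, v, w} C K} [IsWeilProj H]
    {P : 𝒱.Obj → Prop} {h : ∀ Y : 𝒱.Obj, C.A Y} {n i : ℕ} (hL : Lefschetz H P h n i) :
    Hartshorne P h n i ↔ NoTrivialCycles H P n i := by
  constructor
  · intro h1 Y y hP hY hy
    obtain ⟨q, rfl⟩ := h1 Y hP hY y hy.1
    have h2 := hy.2
    rw [Algebra.smul_def, map_mul] at h2
    by_cases hq : q = 0
    · rw [hq, zero_smul]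
    · exfalso
      have h3 : H.cl (algebraMap ℚ (C.A Y) q⁻¹) * (H.cl (algebraMap ℚ (C.A Y) q) *
          H.cl (h Y ^ i)) = 0 := by rw [h2, mul_zero]
      rw [← mul_assoc, ← map_mul, ← map_mul, ← map_mul (algebraMap ℚ (C.A Y)),
        inv_mul_cancel₀ hq, map_one, one_mul] at h3
      exact (hL Y hP hY).2.1 h3
  · intro h1 Y hP hY y hy
    obtain ⟨hd, -, hl⟩ := hL Y hP hY
    obtain ⟨q, hq⟩ := hl y hy
    refine ⟨q, sub_eq_zero.1 (h1 Y _ hP hY ⟨?_, hq⟩)⟩
    exact Submodule.sub_mem _ hy (Submodule.smul_mem _ q hd)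

theorem result {k : Type u} [Field k] {𝒱 : VarClass k} {C : TheoryData.{u, v, 0} 𝒱 ℚ}
    [IsChowProj C] {K : Type w} [Field K] {H : WeilTheoryData.{u, v, w} C K} [IsWeilProj H]
    (P : 𝒱.Obj → Prop) (h : ∀ Y : 𝒱.Obj, C.A Y) (n i : ℕ) (hL : Lefschetz H P h n i)
    (hB : ∀ (S : 𝒱.Obj) (N : ℕ), P S → S.dim = n → HasPower C n N S) :
    (∀ D : ℕ, 1 ≤ D → (Hartshorne P h n i ↔ ShortOrbits C (Triv H i) (Adm C P n) n D)) ∧
    (∀ D : ℕ, 1 ≤ D → (Hartshorne P h n i ↔ NoIndex C (Triv H i) (Adm C P n) n D)) ∧
    (∀ D : ℕ, (Hartshorne P h n i ↔ SmallRank C (Triv H i) (Adm C P n) n D)) ∧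
    (∀ D : ℕ, 1 ≤ D →
      (Hartshorne P h n i ↔ FewEigenvalues C (Triv H i) (Adm C P n) n D)) ∧
    (∀ (G : Type) [Monoid G] (N : ℕ) (ρ : G →* Matrix (Fin N) (Fin N) ℚ) (g : G), ρ g ≠ 1 →
      (Hartshorne P h n i ↔ TrivialActions C (Triv H i) (Adm C P n) n G)) ∧
    (∀ (G : Type) [Group G] [Finite G] [Nontrivial G],
      Hartshorne P h n i ↔ TrivialActions C (Triv H i) (Adm C P n) n G) := by
  simp only [hartshorne_iff hL]
  refine main ?_ ?_
  · intro h X hX W hW α hα
    unfold Adm at hW
    induction hW using Submodule.span_induction with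
    | mem W' hW' =>
      obtain ⟨Y, Γ, Δ, hP, hY, hΓ, hΔ, h1⟩ := hW'
      rw [h1, C.act_comp, h Y _ hP hY (hom_act hX hΓ hα), C.act_map_zero]
    | zero => exact C.act_zero _
    | add x y _ _ hx hy =>
      have h2 : x + y = x - (-1 : ℚ) • y := by rw [neg_one_smul, sub_neg_eq_add]
      rw [h2, C.act_sub, act_smul', hx, hy, smul_zero, sub_zero]
    | smul c x _ hx => rw [act_smul', hx, smul_zero]
  · intro h
    unfold NoTrivialCycles at h
    push Not at h
    obtain ⟨S, x, hPS, hS, hx, hx0⟩ := h
    refine units_of (H := H) (m := i) (fun h => h) ?_ ?_ hS hx hx0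
      (fun N => hB S N hPS hS) ?_
    · intro X Y f y hX hY hy
      exact HomTriv.pull hy
    · intro X Y f x hX hY hx
      exact HomTriv.push hX hY hx
    · intro V ι _ p c hV
      exact Submodule.sum_mem _ fun i _ => Submodule.sum_mem _ fun j _ =>
        Submodule.smul_mem _ _ (Submodule.subset_span (factors_mt hS hPS _ _))

end Pool.Agent.Results.MP_4be043_ag.GroupActionsAndPowers
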